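import Pool.Agent.Work.MP_8f87b2_h14.P5S
import Pool.Agent.Work.MP_8f87b2_h27.DisKm

/-!
# MP_8f87b2_co: word rows of P5, P5M against the plain types (helper15)

`TyP5D S`, `TyP5MD S` (helper14) against `E`, `Ed`, `L`, `K`, `K'`, `C`, `C'` (any data), with disjoint groups.
`nf4 t` : the number of parts at least `4`; every word of P5 has at least two of them (`TyP5D.two4`).
-/

set_option autoImplicit false

namespace Pool.OddHC

open Finset Equiv BinaryTree Pool.Agent.Work.MP_8f87b2_co P5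

variable {k : ℕ} {F F' : Set (Cyc k)} {g g' : DG k} {S : BinaryTree Unit}

/-! ### Parts at least four -/

/-- the number of parts at least `4` -/
def nf4 (t : BinaryTree Unit) : ℕ := (cont t).countP (4 ≤ ·)

theorem nf4_raise_ge (M : Multiset ℕ) : M.countP (4 ≤ ·) ≤ (raise M).countP (4 ≤ ·) := by
  unfold raise
  rw [Multiset.countP_cons]
  by_cases h0 : M.sup ∈ M
  · have h1 : M = M.sup ::ₘ M.erase M.sup := (Multiset.cons_erase h0).symm
    have h2 : M.countP (4 ≤ ·) = (M.erase M.sup).countP (4 ≤ ·) + if 4 ≤ M.sup then 1 else 0 := by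
      conv_lhs => rw [h1]
      rw [Multiset.countP_cons]
    rw [h2]
    split_ifs <;> omega
  · rw [Multiset.erase_of_notMem h0]
    omega

theorem nf4_raise_le (M : Multiset ℕ) : (raise M).countP (4 ≤ ·) ≤ max (M.countP (4 ≤ ·)) 1 := by
  unfold raise
  rw [Multiset.countP_cons]
  by_cases h4 : 4 ≤ M.sup
  · have h0 : M.sup ∈ M := sup_mem (by rintro rfl; simp at h4)
    have h1 : M = M.sup ::ₘ M.erase M.sup := (Multiset.cons_erase h0).symm
    have h2 : M.countP (4 ≤ ·) = (M.erase M.sup).countP (4 ≤ ·) + if 4 ≤ M.sup then 1 else 0 := by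
      conv_lhs => rw [h1]
      rw [Multiset.countP_cons]
    rw [if_pos h4] at h2
    split_ifs <;> omega
  · have h3 : (M.erase M.sup).countP (4 ≤ ·) = 0 := by
      rw [Multiset.countP_eq_zero]
      intro x hx h
      have := Multiset.le_sup (Multiset.mem_of_mem_erase hx)
      omega
    rw [h3]
    split_ifs <;> omega

theorem nf4_raise_zero {M : Multiset ℕ} (h : M.sup ≤ 2) : (raise M).countP (4 ≤ ·) = 0 := by
  rw [Multiset.countP_eq_zero]
  intro x hx h4
  have h1 := Multiset.le_sup hx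
  rw [sup_raise] at h1
  omega

theorem nf4_nil : nf4 .nil = 0 := rfl

theorem nf4_node_ge (A B : BinaryTree Unit) : nf4 A + nf4 B ≤ nf4 (A △ B) := by
  unfold nf4
  rw [cont_node, Multiset.countP_add]
  have := nf4_raise_ge (cont A)
  omega

theorem nf4_node_le (A B : BinaryTree Unit) : nf4 (A △ B) ≤ max (nf4 A) 1 + nf4 B := by
  unfold nf4
  rw [cont_node, Multiset.countP_add]
  have := nf4_raise_le (cont A)
  omega

theorem nf4_node_low {A : BinaryTree Unit} (h : ht A ≤ 2) (B : BinaryTree Unit) : nf4 (A △ B) = nf4 B := by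
  unfold nf4
  rw [cont_node, Multiset.countP_add, nf4_raise_zero (by rw [← ht_eq]; exact h), zero_add]

theorem nf4_app (P Q : BinaryTree Unit) : nf4 (app P Q) = nf4 P + nf4 Q := by
  unfold nf4
  rw [cont_app, Multiset.countP_add]

theorem PD.two (h : PD S) : 2 ≤ nf4 S := PD.c4 h

theorem nf4_wR (S : BinaryTree Unit) : ∀ i < 5, nf4 S ≤ nf4 (wR S i) := by
  intro i hi
  interval_cases i
  · have h1 := nf4_node_ge S .nil
    have h2 := nf4_node_ge .nil (S △ .nil)
    have h3 := nf4_node_ge (.nil △ (S △ .nil)) .nil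
    change nf4 S ≤ nf4 ((.nil △ (S △ .nil)) △ .nil)
    omega
  · have h1 := nf4_node_ge S o
    have h2 := nf4_node_ge .nil (S △ o)
    change nf4 S ≤ nf4 (.nil △ (S △ o))
    omega
  · change nf4 S ≤ nf4 (app S (o △ o))
    rw [nf4_app]
    omega
  · have h1 := nf4_node_ge (.nil △ o) S
    change nf4 S ≤ nf4 ((.nil △ o) △ S)
    omega
  · have h1 := nf4_node_ge S .nil
    have h2 := nf4_node_ge .nil (S △ .nil)
    have h3 := nf4_node_ge .nil (.nil △ (S △ .nil))
    change nf4 S ≤ nf4 (.nil △ (.nil △ (S △ .nil)))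
    omega

theorem nf4_wM (S : BinaryTree Unit) : ∀ i < 5, nf4 S ≤ nf4 (wM S i) := by
  intro i hi
  interval_cases i
  · have h1 := nf4_node_ge S o
    have h2 := nf4_node_ge (S △ o) .nil
    change nf4 S ≤ nf4 ((S △ o) △ .nil)
    omega
  · have h1 := nf4_node_ge S (.nil △ o)
    change nf4 S ≤ nf4 (S △ (.nil △ o))
    omega
  · change nf4 S ≤ nf4 (app S ((.nil △ o) △ .nil))
    rw [nf4_app]
    omega
  · have h1 := nf4_node_ge o S
    have h2 := nf4_node_ge .nil (o △ S)
    change nf4 S ≤ nf4 (.nil △ (o △ S))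
    omega
  · have h1 := nf4_node_ge S o
    have h2 := nf4_node_ge .nil (S △ o)
    change nf4 S ≤ nf4 (.nil △ (S △ o))
    omega

/-- **every word of P5 has two parts at least `4`** -/
theorem TyP5D.two4 (h : TyP5D S F g) : ∀ w ∈ g.B, 2 ≤ nf4 w.1 := by
  intro w hw
  have h1 := h.1.two
  obtain ⟨i, hi, e, -, -⟩ := h.2.mem w hw
  rw [wR_eq S i hi] at e
  rw [e]
  exact le_trans h1 (nf4_wR S i hi)

theorem TyP5MD.two4 (h : TyP5MD S F g) : ∀ w ∈ g.B, 2 ≤ nf4 w.1 := by
  intro w hw
  have h1 := h.1.two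
  obtain ⟨i, hi, e, -, -⟩ := h.2.mem w hw
  rw [wM_eq S i hi] at e
  rw [e]
  exact le_trans h1 (nf4_wM S i hi)

/-! ### Components of the words -/

theorem cp15_o : comps o = [.nil] := rfl

theorem cpw15_R0 (S : BinaryTree Unit) : comps (wR S 0) = [.nil △ (S △ .nil)] := rfl
theorem cpw15_R1 (S : BinaryTree Unit) : comps (wR S 1) = [.nil, S, .nil] := rfl
theorem cpw15_R2 (S : BinaryTree Unit) : comps (wR S 2) = comps S ++ [o, .nil] := by
  change comps (app S (o △ o)) = _
  rw [comps_app]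
  rfl
theorem cpw15_R3 (S : BinaryTree Unit) : comps (wR S 3) = (.nil △ o) :: comps S := rfl
theorem cpw15_R4 (S : BinaryTree Unit) : comps (wR S 4) = [.nil, .nil, S] := rfl

theorem cpw15_M0 (S : BinaryTree Unit) : comps (wM S 0) = [S △ o] := rfl
theorem cpw15_M1 (S : BinaryTree Unit) : comps (wM S 1) = [S, .nil, .nil] := rfl
theorem cpw15_M2 (S : BinaryTree Unit) : comps (wM S 2) = comps S ++ [.nil △ o] := by
  change comps (app S ((.nil △ o) △ .nil)) = _
  rw [comps_app]
  rfl
theorem cpw15_M3 (S : BinaryTree Unit) : comps (wM S 3) = .nil :: o :: comps S := rfl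
theorem cpw15_M4 (S : BinaryTree Unit) : comps (wM S 4) = [.nil, S, .nil] := rfl

theorem lenw15_R {S : BinaryTree Unit} (hS : S ≠ .nil) : (comps (wR S 0)).length = 1 ∧
    (comps (wR S 1)).length = 3 ∧ 3 ≤ (comps (wR S 2)).length ∧ 2 ≤ (comps (wR S 3)).length ∧
    (comps (wR S 4)).length = 3 := by
  have h := List.length_pos_iff.2 (comps_ne hS)
  refine ⟨rfl, rfl, ?_, ?_, rfl⟩
  · rw [cpw15_R2, List.length_append]
    change 3 ≤ _ + 2
    omega
  · rw [cpw15_R3, List.length_cons]
    omega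

theorem lenw15_M {S : BinaryTree Unit} (hS : S ≠ .nil) : (comps (wM S 0)).length = 1 ∧
    (comps (wM S 1)).length = 3 ∧ 2 ≤ (comps (wM S 2)).length ∧ 3 ≤ (comps (wM S 3)).length ∧
    (comps (wM S 4)).length = 3 := by
  have h := List.length_pos_iff.2 (comps_ne hS)
  refine ⟨rfl, rfl, ?_, ?_, rfl⟩
  · rw [cpw15_M2, List.length_append]
    change 2 ≤ _ + 1
    omega
  · rw [cpw15_M3, List.length_cons, List.length_cons]
    omega

/-! ### P5 against a plain triple -/

variable {P Q R : BinaryTree Unit}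

/-- a new word of P5 may be the host of the triple only if it is on a T-cycle of the triple -/
theorem TyP5D.tri (h : TyP5D S F g) (ht : IsTri P Q R F' g') (hd : ∀ c ∈ F, c ∉ F')
    (n0 : comps (wR S 0) ≠ comps (w1 P Q R)) (n1 : comps (wR S 0) ≠ comps (w1 Q R P))
    (n2 : comps (wR S 0) ≠ comps (w1 R P Q))
    (m : ∀ i, 1 ≤ i → i < 5 → comps (wR S i) = comps (w1 P Q R) → ∃ c ∈ F, c ∈ F') :
    ∀ w ∈ g.B, w ∉ g'.B := by
  intro w hw hw'
  rcases h.mem w hw with ⟨e, -⟩ | ⟨hc, e⟩
  · rcases ht.words w hw' with e' | ⟨-, e' | e'⟩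
    · exact n0 (by rw [← e, e'])
    · exact n1 (by rw [← e, e'])
    · exact n2 (by rw [← e, e'])
  · rcases ht.words w hw' with e' | ⟨hc', -⟩
    · have key : ∃ i, 1 ≤ i ∧ i < 5 ∧ w.1 = wR S i := by
        rcases e with e | e | e | e
        · exact ⟨1, by norm_num, by norm_num, e⟩
        · exact ⟨2, by norm_num, by norm_num, e⟩
        · exact ⟨3, by norm_num, by norm_num, e⟩
        · exact ⟨4, by norm_num, by norm_num, e⟩
      obtain ⟨i, h1, h2, e⟩ := key
      obtain ⟨c, h3, h4⟩ := m i h1 h2 (by rw [← e, e'])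
      exact hd c h3 h4
    · exact hd _ hc hc'

theorem TyP5MD.tri (h : TyP5MD S F g) (ht : IsTri P Q R F' g') (hd : ∀ c ∈ F, c ∉ F')
    (n0 : comps (wM S 0) ≠ comps (w1 P Q R)) (n1 : comps (wM S 0) ≠ comps (w1 Q R P))
    (n2 : comps (wM S 0) ≠ comps (w1 R P Q))
    (m : ∀ i, 1 ≤ i → i < 5 → comps (wM S i) = comps (w1 P Q R) → ∃ c ∈ F, c ∈ F') :
    ∀ w ∈ g.B, w ∉ g'.B := by
  intro w hw hw'
  rcases h.mem w hw with ⟨e, -⟩ | ⟨hc, e⟩
  · rcases ht.words w hw' with e' | ⟨-, e' | e'⟩
    · exact n0 (by rw [← e, e'])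
    · exact n1 (by rw [← e, e'])
    · exact n2 (by rw [← e, e'])
  · rcases ht.words w hw' with e' | ⟨hc', -⟩
    · have key : ∃ i, 1 ≤ i ∧ i < 5 ∧ w.1 = wM S i := by
        rcases e with e | e | e | e
        · exact ⟨1, by norm_num, by norm_num, e⟩
        · exact ⟨2, by norm_num, by norm_num, e⟩
        · exact ⟨3, by norm_num, by norm_num, e⟩
        · exact ⟨4, by norm_num, by norm_num, e⟩
      obtain ⟨i, h1, h2, e⟩ := key
      obtain ⟨c, h3, h4⟩ := m i h1 h2 (by rw [← e, e'])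
      exact hd c h3 h4
    · exact hd _ hc hc'

/-- the four new words of P5 -/
theorem TyP5D.newW (h : TyP5D S F g) : ∀ i, 1 ≤ i → i < 5 → ∃ x : X k, x.1 = wR S i ∧ cyc x ∈ F := by
  obtain ⟨-, w, hw, -, rfl, -⟩ := h
  intro i h1 h2
  refine ⟨w i, by rw [hw i h2, wR_eq S i h2], ?_⟩
  interval_cases i <;> simp [F4]

theorem TyP5MD.newW (h : TyP5MD S F g) : ∀ i, 1 ≤ i → i < 5 → ∃ x : X k, x.1 = wM S i ∧ cyc x ∈ F := by
  obtain ⟨-, w, hw, -, rfl, -⟩ := h
  intro i h1 h2
  refine ⟨w i, by rw [hw i h2, wM_eq S i h2], ?_⟩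
  interval_cases i <;> simp [F4]

theorem PD.ne' (h : PD S) : S ≠ o := by
  rintro rfl
  have h1 := h.ht
  have h2 : OddHC.ht o = 1 := rfl
  omega

theorem PD.not_ch (h : PD S) : ∀ c, S ≠ H1.ch c := by
  have key : ∀ c, nf4 (H1.ch c) ≤ 1 := by
    intro c
    induction c with
    | zero => exact Nat.zero_le _
    | succ c ih =>
      have h1 := nf4_node_le (H1.ch c) .nil
      rw [nf4_nil] at h1
      change nf4 (H1.ch c △ .nil) ≤ 1
      omega
  rintro c rfl
  have := h.two
  have := key c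
  omega

/-! ### E, Ed -/

/-- **W-P5-E** -/
theorem TyP5D.disj_E (h : TyP5D S F g) (h' : TyE F' g') (hd : ∀ c ∈ F, c ∉ F') : ∀ w ∈ g.B, w ∉ g'.B := by
  have hS := h.1.ne
  obtain ⟨h0, h1, h2, h3, h4⟩ := lenw15_R hS
  obtain ⟨X, hX, ht, -⟩ := h'.data
  have e : ∀ w ∈ g'.B, cyc w ∉ F' → (comps w.1).length = 1 := by
    intro w hw hc
    rcases ht.words w hw with e | ⟨hc', -⟩
    · rw [e]; rfl
    · exact absurd hc' hc
  refine h.row hd (fun FE gE hE hd' => dj_EdE FE gE F' g' hE h' hd') ?_ ?_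
  · intro w hw hc e'
    have := e w hw hc
    rw [e'] at this
    change (comps (wR S 2)).length = 1 at this
    omega
  · intro w hw hc e'
    have := e w hw hc
    rw [e'] at this
    change (comps (wR S 3)).length = 1 at this
    omega

/-- **W-P5M-E** -/
theorem TyP5MD.disj_E (h : TyP5MD S F g) (h' : TyE F' g') (hd : ∀ c ∈ F, c ∉ F') : ∀ w ∈ g.B, w ∉ g'.B := by
  have hS := h.1.ne
  obtain ⟨h0, h1, h2, h3, h4⟩ := lenw15_M hS
  obtain ⟨X, hX, ht, -⟩ := h'.data
  have e : ∀ w ∈ g'.B, cyc w ∉ F' → (comps w.1).length = 1 := by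
    intro w hw hc
    rcases ht.words w hw with e | ⟨hc', -⟩
    · rw [e]; rfl
    · exact absurd hc' hc
  refine h.row hd (fun FE gE hE hd' => dj_EdE FE gE F' g' hE h' hd') ?_ ?_
  · intro w hw hc e'
    have := e w hw hc
    rw [e'] at this
    change (comps (wM S 3)).length = 1 at this
    omega
  · intro w hw hc e'
    have := e w hw hc
    rw [e'] at this
    change (comps (wM S 2)).length = 1 at this
    omega

/-- **W-P5-Ed** -/
theorem TyP5D.disj_Ed (h : TyP5D S F g) (h' : TyEd F' g') (hd : ∀ c ∈ F, c ∉ F') : ∀ w ∈ g.B, w ∉ g'.B :=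
  h.disj_E h'.toE hd

theorem TyP5MD.disj_Ed (h : TyP5MD S F g) (h' : TyEd F' g') (hd : ∀ c ∈ F, c ∉ F') :
    ∀ w ∈ g.B, w ∉ g'.B := h.disj_E h'.toE hd

/-! ### L -/

/-- **W-P5-L**: `R` of height at least `2` -/
theorem TyP5D.disj_L2 (h : TyP5D S F g) (hR : 2 ≤ OddHC.ht R) (h' : IsTri (lp 1) R (lp 1) F' g')
    (hd : ∀ c ∈ F, c ∉ F') : ∀ w ∈ g.B, w ∉ g'.B := by
  have hS := h.1.ne
  have hRn := ht2_ne hR
  have hRo : R ≠ o := fun e => ht2_lp hR 1 e
  have hl : comps (lp 1) = [.nil] := rfl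
  have e0 : comps (w1 (lp 1) R (lp 1)) = [.nil, R, .nil] := by rw [comps_w1, hl]; rfl
  have e1 : comps (w1 R (lp 1) (lp 1)) = comps R ++ [o, .nil] := by rw [comps_w1, hl]; rfl
  have e2 : comps (w1 (lp 1) (lp 1) R) = .nil :: o :: comps R := by rw [comps_w1, hl]; rfl
  have hp := List.length_pos_iff.2 (comps_ne hRn)
  refine h.tri h' hd ?_ ?_ ?_ ?_
  · rw [e0, cpw15_R0]
    intro e
    have := congrArg List.length e
    simp at this
  · rw [e1, cpw15_R0]
    intro e
    have := congrArg List.length e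
    simp at this
  · rw [e2, cpw15_R0]
    intro e
    have := congrArg List.length e
    simp at this
  · intro i h1 h2 e
    rw [e0] at e
    interval_cases i
    · rw [cpw15_R1] at e
      obtain rfl : S = R := by simpa using e
      obtain ⟨x, hx, hc⟩ := h.newW 2 (by norm_num) (by norm_num)
      refine ⟨cyc x, hc, ?_⟩
      obtain ⟨a, b, c, ha, hb, hc', q1, q2, q3, rfl, -⟩ := h'
      have : x = b := Subtype.ext (hx.trans hb.symm)
      rw [this]
      exact Or.inl rfl
    · rw [cpw15_R2] at e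
      exfalso
      have e3 : comps S ++ [o] ++ [BinaryTree.nil] = [.nil, R] ++ [BinaryTree.nil] := by
        rw [List.append_assoc]; exact e
      have e4 := List.append_cancel_right e3
      have e5 : comps S ++ [o] = [.nil] ++ [R] := e4
      have e6 := List.append_inj_right' e5 rfl
      rw [List.cons.injEq] at e6
      exact hRo e6.1.symm
    · rw [cpw15_R3] at e
      exfalso
      rw [List.cons.injEq] at e
      exact absurd e.1 (by simp)
    · rw [cpw15_R4] at e
      exfalso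
      simp only [List.cons.injEq, true_and] at e
      exact hRn e.1.symm

/-- **W-P5M-L** -/
theorem TyP5MD.disj_L2 (h : TyP5MD S F g) (hR : 2 ≤ OddHC.ht R) (h' : IsTri (lp 1) R (lp 1) F' g')
    (hd : ∀ c ∈ F, c ∉ F') : ∀ w ∈ g.B, w ∉ g'.B := by
  have hS := h.1.ne
  have hRn := ht2_ne hR
  have hRo : R ≠ o := fun e => ht2_lp hR 1 e
  have hl : comps (lp 1) = [.nil] := rfl
  have e0 : comps (w1 (lp 1) R (lp 1)) = [.nil, R, .nil] := by rw [comps_w1, hl]; rfl
  have e1 : comps (w1 R (lp 1) (lp 1)) = comps R ++ [o, .nil] := by rw [comps_w1, hl]; rfl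
  have e2 : comps (w1 (lp 1) (lp 1) R) = .nil :: o :: comps R := by rw [comps_w1, hl]; rfl
  have hp := List.length_pos_iff.2 (comps_ne hRn)
  refine h.tri h' hd ?_ ?_ ?_ ?_
  · rw [e0, cpw15_M0]
    intro e
    have := congrArg List.length e
    simp at this
  · rw [e1, cpw15_M0]
    intro e
    have := congrArg List.length e
    simp at this
  · rw [e2, cpw15_M0]
    intro e
    have := congrArg List.length e
    simp at this
  · intro i h1 h2 e
    rw [e0] at e
    interval_cases i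
    · rw [cpw15_M1] at e
      exfalso
      rw [List.cons.injEq] at e
      exact hS e.1
    · rw [cpw15_M2] at e
      exfalso
      have e3 : comps S ++ [.nil △ o] = [.nil, R] ++ [BinaryTree.nil] := e
      have e6 := List.append_inj_right' e3 rfl
      rw [List.cons.injEq] at e6
      exact absurd e6.1 (by simp)
    · rw [cpw15_M3] at e
      exfalso
      rw [List.cons.injEq, List.cons.injEq] at e
      exact hRo e.2.1.symm
    · rw [cpw15_M4] at e
      obtain rfl : S = R := by simpa using e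
      obtain ⟨x, hx, hc⟩ := h.newW 3 (by norm_num) (by norm_num)
      refine ⟨cyc x, hc, ?_⟩
      obtain ⟨a, b, c, ha, hb, hc', q1, q2, q3, rfl, -⟩ := h'
      have : x = c := Subtype.ext (hx.trans hc'.symm)
      rw [this]
      exact Or.inr rfl

/-- **W-P5-L** -/
theorem TyP5D.disj_L (h : TyP5D S F g) (h' : TyL F' g') (hd : ∀ c ∈ F, c ∉ F') : ∀ w ∈ g.B, w ∉ g'.B := by
  obtain ⟨R', e, h1, -, -, -, h5⟩ := h'
  exact h.disj_L2 (ht_ins_ge R' e h1) h5 hd

theorem TyP5MD.disj_L (h : TyP5MD S F g) (h' : TyL F' g') (hd : ∀ c ∈ F, c ∉ F') : ∀ w ∈ g.B, w ∉ g'.B := by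
  obtain ⟨R', e, h1, -, -, -, h5⟩ := h'
  exact h.disj_L2 (ht_ins_ge R' e h1) h5 hd

/-! ### K, K' -/

/-- **W-P5-K**, any `U` -/
theorem TyP5D.disj_K {U : BinaryTree Unit} (h : TyP5D S F g) (h' : TyK U F' g') (hd : ∀ c ∈ F, c ∉ F') :
    ∀ w ∈ g.B, w ∉ g'.B := by
  have hS := h.1.ne
  obtain ⟨l0, l1, l2, l3, l4⟩ := lenw15_R hS
  have e0 : comps (w1 .nil U (.nil △ .nil)) = [U, .nil] := by rw [comps_w1]; rfl
  have e1 : comps (w1 U (.nil △ .nil) .nil) = comps U ++ [o] := by rw [comps_w1]; rfl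
  have e2 : comps (w1 (.nil △ .nil) .nil U) = .nil :: .nil :: comps U := by rw [comps_w1]; rfl
  refine h.tri h' hd ?_ ?_ ?_ ?_
  · intro e
    have := congrArg List.length e
    rw [e0] at this
    simp [l0] at this
  · rw [e1, cpw15_R0]
    intro e
    have e6 : [] ++ [.nil △ (S △ .nil)] = comps U ++ [o] := e
    have e7 := List.append_inj_right' e6 rfl
    rw [List.cons.injEq] at e7
    have e8 := congrArg comps e7.1
    simp [comps, o] at e8
  · intro e
    have := congrArg List.length e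
    rw [e2] at this
    simp [l0] at this
  · intro i h1 h2 e
    exfalso
    have e3 := congrArg List.length e
    rw [e0] at e3
    interval_cases i
    · simp [l1] at e3
    · simp at e3; omega
    · rw [cpw15_R3, e0, List.cons.injEq] at e
      have h6 : S = o := comps_inj e.2
      exact h.1.ne' h6
    · simp [l4] at e3

/-- **W-P5M-K**, any `U` -/
theorem TyP5MD.disj_K {U : BinaryTree Unit} (h : TyP5MD S F g) (h' : TyK U F' g') (hd : ∀ c ∈ F, c ∉ F') :
    ∀ w ∈ g.B, w ∉ g'.B := by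
  have hS := h.1.ne
  obtain ⟨l0, l1, l2, l3, l4⟩ := lenw15_M hS
  have e0 : comps (w1 .nil U (.nil △ .nil)) = [U, .nil] := by rw [comps_w1]; rfl
  have e1 : comps (w1 U (.nil △ .nil) .nil) = comps U ++ [o] := by rw [comps_w1]; rfl
  have e2 : comps (w1 (.nil △ .nil) .nil U) = .nil :: .nil :: comps U := by rw [comps_w1]; rfl
  refine h.tri h' hd ?_ ?_ ?_ ?_
  · intro e
    have := congrArg List.length e
    rw [e0] at this
    simp [l0] at this
  · rw [e1, cpw15_M0]
    intro e
    have e6 : [] ++ [S △ o] = comps U ++ [o] := e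
    have e7 := List.append_inj_right' e6 rfl
    rw [List.cons.injEq] at e7
    have e8 := congrArg comps e7.1
    simp [comps, o] at e8
  · intro e
    have := congrArg List.length e
    rw [e2] at this
    simp [l0] at this
  · intro i h1 h2 e
    exfalso
    have e3 := congrArg List.length e
    rw [e0] at e3
    interval_cases i
    · simp [l1] at e3
    · rw [cpw15_M2, e0] at e
      have e6 : comps S ++ [.nil △ o] = [U] ++ [.nil] := e
      have e7 := List.append_inj_right' e6 rfl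
      rw [List.cons.injEq] at e7
      exact absurd e7.1 (by simp)
    · simp at e3; omega
    · simp [l4] at e3

/-- **W-P5-K'**, any `U` -/
theorem TyP5D.disj_K' {U : BinaryTree Unit} (h : TyP5D S F g) (h' : TyK' U F' g') (hd : ∀ c ∈ F, c ∉ F') :
    ∀ w ∈ g.B, w ∉ g'.B := by
  have hS := h.1.ne
  obtain ⟨l0, l1, l2, l3, l4⟩ := lenw15_R hS
  have e0 : comps (w1 (.nil △ .nil) U .nil) = [.nil, U] := by rw [comps_w1]; rfl
  have e1 : comps (w1 U .nil (.nil △ .nil)) = comps U ++ [.nil, .nil] := by rw [comps_w1]; rfl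
  have e2 : comps (w1 .nil (.nil △ .nil) U) = o :: comps U := by rw [comps_w1]; rfl
  refine h.tri h' hd ?_ ?_ ?_ ?_
  · intro e
    have := congrArg List.length e
    rw [e0] at this
    simp [l0] at this
  · intro e
    have := congrArg List.length e
    rw [e1] at this
    simp [l0] at this
  · rw [e2, cpw15_R0]
    intro e
    rw [List.cons.injEq] at e
    have e8 := congrArg comps e.1
    simp [comps, o] at e8
  · intro i h1 h2 e
    exfalso
    have e3 := congrArg List.length e
    rw [e0] at e3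
    interval_cases i
    · simp [l1] at e3
    · simp at e3; omega
    · rw [cpw15_R3, e0, List.cons.injEq] at e
      exact absurd e.1 (by simp)
    · simp [l4] at e3

/-- **W-P5M-K'**, any `U` -/
theorem TyP5MD.disj_K' {U : BinaryTree Unit} (h : TyP5MD S F g) (h' : TyK' U F' g') (hd : ∀ c ∈ F, c ∉ F') :
    ∀ w ∈ g.B, w ∉ g'.B := by
  have hS := h.1.ne
  obtain ⟨l0, l1, l2, l3, l4⟩ := lenw15_M hS
  have e0 : comps (w1 (.nil △ .nil) U .nil) = [.nil, U] := by rw [comps_w1]; rfl
  have e1 : comps (w1 U .nil (.nil △ .nil)) = comps U ++ [.nil, .nil] := by rw [comps_w1]; rfl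
  have e2 : comps (w1 .nil (.nil △ .nil) U) = o :: comps U := by rw [comps_w1]; rfl
  refine h.tri h' hd ?_ ?_ ?_ ?_
  · intro e
    have := congrArg List.length e
    rw [e0] at this
    simp [l0] at this
  · intro e
    have := congrArg List.length e
    rw [e1] at this
    simp [l0] at this
  · rw [e2, cpw15_M0]
    intro e
    rw [List.cons.injEq] at e
    have e8 := congrArg comps e.1
    simp [comps, o] at e8
  · intro i h1 h2 e
    exfalso
    have e3 := congrArg List.length e
    rw [e0] at e3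
    interval_cases i
    · simp [l1] at e3
    · rw [cpw15_M2, e0] at e
      have e6 : comps S ++ [.nil △ o] = [.nil] ++ [U] := e
      have e7 := List.append_inj_left' e6 rfl
      exact h.1.ne' (comps_inj e7)
    · simp at e3; omega
    · simp [l4] at e3

/-! ### C, C' -/

/-- **W-P5-C** (right content links: Cr, Dn, Fz, ..), any `c`, `U` -/
theorem TyP5D.disj_C {c : ℕ} {U : BinaryTree Unit} (hc : 1 ≤ c) (h : TyP5D S F g) (h' : TyC c U F' g')
    (hd : ∀ c ∈ F, c ∉ F') : ∀ w ∈ g.B, w ∉ g'.B := by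
  have hS := h.1.ne
  obtain ⟨l0, l1, l2, l3, l4⟩ := lenw15_R hS
  obtain ⟨c, rfl⟩ : ∃ c', c = c' + 1 := ⟨c - 1, by omega⟩
  have e0 : comps (w1 .nil U (H1.ch (c + 1))) = [U, H1.ch c] := by rw [comps_w1]; rfl
  have e1 : comps (w1 U (H1.ch (c + 1)) .nil) = comps U ++ [H1.ch (c + 1)] := by rw [comps_w1]; rfl
  have e2 : comps (w1 (H1.ch (c + 1)) .nil U) = H1.ch c :: .nil :: comps U := by rw [comps_w1]; rfl
  refine h.tri h' hd ?_ ?_ ?_ ?_
  · intro e
    have := congrArg List.length e
    rw [e0] at this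
    simp [l0] at this
  · rw [e1, cpw15_R0]
    intro e
    have e6 : [] ++ [.nil △ (S △ .nil)] = comps U ++ [H1.ch (c + 1)] := e
    have e7 := List.append_inj_right' e6 rfl
    rw [List.cons.injEq] at e7
    have e8 := congrArg (fun t => (comps t).length) e7.1
    simp [comps, comps_ch] at e8
  · intro e
    have := congrArg List.length e
    rw [e2] at this
    simp [l0] at this
  · intro i h1 h2 e
    exfalso
    have e3 := congrArg List.length e
    rw [e0] at e3
    interval_cases i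
    · simp [l1] at e3
    · simp at e3; omega
    · rw [cpw15_R3, e0, List.cons.injEq] at e
      exact h.1.not_ch (c + 1) (comps_inj e.2)
    · simp [l4] at e3

/-- **W-P5M-C** -/
theorem TyP5MD.disj_C {c : ℕ} {U : BinaryTree Unit} (hc : 1 ≤ c) (h : TyP5MD S F g) (h' : TyC c U F' g')
    (hd : ∀ c ∈ F, c ∉ F') : ∀ w ∈ g.B, w ∉ g'.B := by
  have hS := h.1.ne
  obtain ⟨l0, l1, l2, l3, l4⟩ := lenw15_M hS
  obtain ⟨c, rfl⟩ : ∃ c', c = c' + 1 := ⟨c - 1, by omega⟩
  have e0 : comps (w1 .nil U (H1.ch (c + 1))) = [U, H1.ch c] := by rw [comps_w1]; rfl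
  have e1 : comps (w1 U (H1.ch (c + 1)) .nil) = comps U ++ [H1.ch (c + 1)] := by rw [comps_w1]; rfl
  have e2 : comps (w1 (H1.ch (c + 1)) .nil U) = H1.ch c :: .nil :: comps U := by rw [comps_w1]; rfl
  refine h.tri h' hd ?_ ?_ ?_ ?_
  · intro e
    have := congrArg List.length e
    rw [e0] at this
    simp [l0] at this
  · rw [e1, cpw15_M0]
    intro e
    have e6 : [] ++ [S △ o] = comps U ++ [H1.ch (c + 1)] := e
    have e7 := List.append_inj_right' e6 rfl
    rw [List.cons.injEq] at e7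
    have e8 := congrArg (fun t => (comps t).length) e7.1
    simp [comps, comps_ch, o] at e8
  · intro e
    have := congrArg List.length e
    rw [e2] at this
    simp [l0] at this
  · intro i h1 h2 e
    exfalso
    have e3 := congrArg List.length e
    rw [e0] at e3
    interval_cases i
    · simp [l1] at e3
    · rw [cpw15_M2, e0] at e
      have e6 : comps S ++ [.nil △ o] = [U] ++ [H1.ch c] := e
      have e7 := List.append_inj_right' e6 rfl
      rw [List.cons.injEq] at e7
      have e8 := congrArg (fun t => (comps t).length) e7.1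
      cases c with
      | zero =>
        change 2 = 0 at e8
        omega
      | succ c => simp [comps, comps_ch, o] at e8
    · simp at e3; omega
    · simp [l4] at e3

/-- **W-P5-C'** (left content links: Cl), any `c`, `U` -/
theorem TyP5D.disj_C' {c : ℕ} {U : BinaryTree Unit} (hc : 1 ≤ c) (h : TyP5D S F g) (h' : TyC' c U F' g')
    (hd : ∀ c ∈ F, c ∉ F') : ∀ w ∈ g.B, w ∉ g'.B := by
  have hS := h.1.ne
  obtain ⟨l0, l1, l2, l3, l4⟩ := lenw15_R hS
  obtain ⟨c, rfl⟩ : ∃ c', c = c' + 1 := ⟨c - 1, by omega⟩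
  have e0 : comps (w1 (H1.ch (c + 1)) U .nil) = [H1.ch c, U] := by rw [comps_w1]; rfl
  have e1 : comps (w1 U .nil (H1.ch (c + 1))) = comps U ++ [.nil, H1.ch c] := by rw [comps_w1]; rfl
  have e2 : comps (w1 .nil (H1.ch (c + 1)) U) = H1.ch (c + 1) :: comps U := by rw [comps_w1]; rfl
  refine h.tri h' hd ?_ ?_ ?_ ?_
  · intro e
    have := congrArg List.length e
    rw [e0] at this
    simp [l0] at this
  · intro e
    have := congrArg List.length e
    rw [e1] at this
    simp [l0] at this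
  · rw [e2, cpw15_R0]
    intro e
    rw [List.cons.injEq] at e
    have e8 := congrArg (fun t => (comps t).length) e.1
    simp [comps, comps_ch] at e8
  · intro i h1 h2 e
    exfalso
    have e3 := congrArg List.length e
    rw [e0] at e3
    interval_cases i
    · simp [l1] at e3
    · simp at e3; omega
    · rw [cpw15_R3, e0, List.cons.injEq] at e
      have e8 := congrArg (fun t => (comps t).length) e.1
      cases c with
      | zero =>
        change 2 = 0 at e8
        omega
      | succ c => simp [comps, comps_ch, o] at e8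
    · simp [l4] at e3

/-- **W-P5M-C'** -/
theorem TyP5MD.disj_C' {c : ℕ} {U : BinaryTree Unit} (hc : 1 ≤ c) (h : TyP5MD S F g) (h' : TyC' c U F' g')
    (hd : ∀ c ∈ F, c ∉ F') : ∀ w ∈ g.B, w ∉ g'.B := by
  have hS := h.1.ne
  obtain ⟨l0, l1, l2, l3, l4⟩ := lenw15_M hS
  obtain ⟨c, rfl⟩ : ∃ c', c = c' + 1 := ⟨c - 1, by omega⟩
  have e0 : comps (w1 (H1.ch (c + 1)) U .nil) = [H1.ch c, U] := by rw [comps_w1]; rfl
  have e1 : comps (w1 U .nil (H1.ch (c + 1))) = comps U ++ [.nil, H1.ch c] := by rw [comps_w1]; rfl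
  have e2 : comps (w1 .nil (H1.ch (c + 1)) U) = H1.ch (c + 1) :: comps U := by rw [comps_w1]; rfl
  refine h.tri h' hd ?_ ?_ ?_ ?_
  · intro e
    have := congrArg List.length e
    rw [e0] at this
    simp [l0] at this
  · intro e
    have := congrArg List.length e
    rw [e1] at this
    simp [l0] at this
  · rw [e2, cpw15_M0]
    intro e
    rw [List.cons.injEq] at e
    have e8 := congrArg (fun t => (comps t).length) e.1
    simp [comps, comps_ch, o] at e8
  · intro i h1 h2 e
    exfalso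
    have e3 := congrArg List.length e
    rw [e0] at e3
    interval_cases i
    · simp [l1] at e3
    · rw [cpw15_M2, e0] at e
      have e6 : comps S ++ [.nil △ o] = [H1.ch c] ++ [U] := e
      have e7 := List.append_inj_left' e6 rfl
      exact h.1.not_ch (c + 1) (comps_inj e7)
    · simp at e3; omega
    · simp [l4] at e3

theorem TyP5D.disj_Cr (h : TyP5D S F g) (h' : TyCr F' g') (hd : ∀ c ∈ F, c ∉ F') : ∀ w ∈ g.B, w ∉ g'.B := by
  obtain ⟨c, U, h1, -, -, h5⟩ := h'
  exact h.disj_C (by omega) h5 hd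

theorem TyP5MD.disj_Cr (h : TyP5MD S F g) (h' : TyCr F' g') (hd : ∀ c ∈ F, c ∉ F') : ∀ w ∈ g.B, w ∉ g'.B := by
  obtain ⟨c, U, h1, -, -, h5⟩ := h'
  exact h.disj_C (by omega) h5 hd

theorem TyP5D.disj_Cl (h : TyP5D S F g) (h' : TyCl F' g') (hd : ∀ c ∈ F, c ∉ F') : ∀ w ∈ g.B, w ∉ g'.B := by
  obtain ⟨c, U, h1, -, -, h5⟩ := h'
  exact h.disj_C' (by omega) h5 hd

theorem TyP5MD.disj_Cl (h : TyP5MD S F g) (h' : TyCl F' g') (hd : ∀ c ∈ F, c ∉ F') : ∀ w ∈ g.B, w ∉ g'.B := by
  obtain ⟨c, U, h1, -, -, h5⟩ := h'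
  exact h.disj_C' (by omega) h5 hd

end Pool.OddHC
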