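import Pool.Agent.Work.MP_8f87b2_h15.P5F

/-!
# MP_8f87b2_co: inner rows L1 - P5, H - P5 (helper15)

The inner words of `L1`, `H` have at most one part at least `4`.
-/

set_option autoImplicit false

namespace Pool.OddHC

open Finset Equiv BinaryTree Pool.Agent.Work.MP_8f87b2_co P5

variable {k : ℕ} {F F' : Set (Cyc k)} {g g' : DG k} {S : BinaryTree Unit}

/-- inner words have the contents of the first words of their arcs -/
theorem inner_nf4 (h : ∀ w ∈ g.B, nf4 w.1 ≤ 1) (hp : ∀ a ∈ g.arcs, a.1 ∈ g.B) :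
    ∀ p ∈ g.arcs, ∀ w ∈ innA p, nf4 w.1 ≤ 1 := by
  intro p hpa w hw
  have e1 : w = TT p.1 := hw
  have e2 : cyc (TT p.1) = cyc p.1 := cyc_eq.2 ⟨-1, by simp⟩
  have e3 : cont w.1 = cont p.1.1 := by
    have := congrArg contc e2
    rw [← e1] at this
    exact this
  have e4 : nf4 w.1 = nf4 p.1.1 := by
    unfold nf4
    rw [e3]
  rw [e4]
  exact h _ (hp p hpa)

theorem TyP5D.inner_of (h' : TyP5D S F' g') (h : ∀ w ∈ g.B, nf4 w.1 ≤ 1) (hp : ∀ a ∈ g.arcs, a.1 ∈ g.B) :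
    ∀ p ∈ g.arcs, ∀ w ∈ innA p, w ∉ g'.B := by
  intro p hpa w hw hw'
  have := inner_nf4 h hp p hpa w hw
  have := h'.two4 w hw'
  omega

theorem TyP5MD.inner_of (h' : TyP5MD S F' g') (h : ∀ w ∈ g.B, nf4 w.1 ≤ 1) (hp : ∀ a ∈ g.arcs, a.1 ∈ g.B) :
    ∀ p ∈ g.arcs, ∀ w ∈ innA p, w ∉ g'.B := by
  intro p hpa w hw hw'
  have := inner_nf4 h hp p hpa w hw
  have := h'.two4 w hw'
  omega

/-- **I-L1-P5** -/
theorem TyL1.inner_P5 (h : TyL1 F g) (h' : TyP5D S F' g') : ∀ p ∈ g.arcs, ∀ w ∈ innA p, w ∉ g'.B :=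
  h'.inner_of h.nf4 (fun a ha => by obtain ⟨n, _, h2, _⟩ := h.path a ha; exact h2)

theorem TyL1.inner_P5M (h : TyL1 F g) (h' : TyP5MD S F' g') : ∀ p ∈ g.arcs, ∀ w ∈ innA p, w ∉ g'.B :=
  h'.inner_of h.nf4 (fun a ha => by obtain ⟨n, _, h2, _⟩ := h.path a ha; exact h2)

/-- **I-H-P5** -/
theorem Hole2.TyH.inner_P5 (h : Hole2.TyH F g) (h' : TyP5D S F' g') :
    ∀ p ∈ g.arcs, ∀ w ∈ innA p, w ∉ g'.B :=
  h'.inner_of h.nf4 (fun a ha => by obtain ⟨n, _, h2, _⟩ := h.path a ha; exact h2)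

theorem Hole2.TyH.inner_P5M (h : Hole2.TyH F g) (h' : TyP5MD S F' g') :
    ∀ p ∈ g.arcs, ∀ w ∈ innA p, w ∉ g'.B :=
  h'.inner_of h.nf4 (fun a ha => by obtain ⟨n, _, h2, _⟩ := h.path a ha; exact h2)

end Pool.OddHC
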