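import Pool.Agent.Work.MP_8f87b2_h15.P5E
import Pool.Agent.Work.MP_8f87b2_h10.L1w
import Pool.Agent.Work.MP_8f87b2_h40.H2e
import Pool.Agent.Work.MP_8f87b2_h20.S5Ty

/-!
# MP_8f87b2_co: word rows of P5, P5M against S5, L1, H (helper15)

The words of `S5`, `L1`, `H` have at most one part at least `4` (`nf4 ≤ 1`), the words of P5 have two.
-/

set_option autoImplicit false

namespace Pool.OddHC

open Finset Equiv BinaryTree Pool.Agent.Work.MP_8f87b2_co P5

variable {k : ℕ} {F F' : Set (Cyc k)} {g g' : DG k} {S : BinaryTree Unit}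

theorem nf4_mir (t : BinaryTree Unit) : nf4 (Tsq.mir t) = nf4 t := by
  unfold nf4
  rw [HM.cont_mir]

theorem nf4_low {t : BinaryTree Unit} (h : ht t ≤ 3) : nf4 t = 0 := by
  unfold nf4
  rw [Multiset.countP_eq_zero]
  intro x hx h4
  have h1 := Multiset.le_sup hx
  rw [← ht_eq] at h1
  omega

theorem nf4_ch (c : ℕ) : nf4 (H1.ch c) ≤ 1 := by
  induction c with
  | zero => exact Nat.zero_le _
  | succ c ih =>
    have h1 := nf4_node_le (H1.ch c) .nil
    rw [nf4_nil] at h1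
    change nf4 (H1.ch c △ .nil) ≤ 1
    omega

theorem nf4_w1_le (P Q R : BinaryTree Unit) : nf4 (w1 P Q R) ≤ nf4 P + max (nf4 Q) 1 + nf4 R := by
  unfold w1
  rw [nf4_app]
  have := nf4_node_le Q R
  omega

theorem nf4_w1_low {Q : BinaryTree Unit} (h : ht Q ≤ 2) (P R : BinaryTree Unit) :
    nf4 (w1 P Q R) = nf4 P + nf4 R := by
  unfold w1
  rw [nf4_app, nf4_node_low h]

/-- **the twenty words** over `R`, `S` with at most one part at least `4`, `B` of height at most `2` -/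
theorem nf4_W {R B T : BinaryTree Unit} (hR : nf4 R ≤ 1) (hT : nf4 T ≤ 1) (hB : ht B ≤ 2) :
    ∀ i < 20, nf4 (H1.W R .nil B T i) ≤ 1 := by
  have h0 : nf4 (.nil : BinaryTree Unit) = 0 := rfl
  have hn : ht (.nil : BinaryTree Unit) ≤ 2 := Nat.zero_le _
  have ho : ht ((.nil : BinaryTree Unit) △ .nil) ≤ 2 := by decide
  have hb : nf4 B = 0 := nf4_low (by omega)
  have hoo : nf4 ((.nil : BinaryTree Unit) △ .nil) = 0 := by rw [nf4_node_low hn, h0]
  have hB1 : nf4 (B △ .nil) = 0 := by rw [nf4_node_low hB, h0]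
  have hBo : nf4 (B △ (.nil △ .nil)) = 0 := by rw [nf4_node_low hB, hoo]
  have hBn : ht (app B (.nil △ .nil)) ≤ 2 := by
    rw [ht_app, max_le_iff]
    exact ⟨hB, ho⟩
  have hBo' : nf4 (app B (.nil △ .nil)) = 0 := by rw [nf4_app, hb, hoo]
  intro i hi
  interval_cases i
  · change nf4 (app R ((.nil △ .nil) △ .nil)) ≤ 1
    rw [nf4_app, nf4_node_low ho, h0]; omega
  · change nf4 (app R (.nil △ (.nil △ .nil))) ≤ 1
    rw [nf4_app, nf4_node_low hn, hoo]; omega
  · change nf4 (.nil △ app R (.nil △ .nil)) ≤ 1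
    rw [nf4_node_low hn, nf4_app, hoo]; omega
  · change nf4 (app R (.nil △ .nil) △ .nil) ≤ 1
    have h1 := nf4_node_le (app R (.nil △ .nil)) .nil
    rw [nf4_app, hoo, h0] at h1; omega
  · change nf4 ((.nil △ .nil) △ R) ≤ 1
    rw [nf4_node_low ho]; exact hR
  · change nf4 (.nil △ (.nil △ R)) ≤ 1
    rw [nf4_node_low hn, nf4_node_low hn]; exact hR
  · change nf4 (R △ (.nil △ .nil)) ≤ 1
    have h1 := nf4_node_le R (.nil △ .nil)
    rw [hoo] at h1; omega
  · change nf4 ((.nil △ R) △ .nil) ≤ 1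
    have h1 := nf4_node_le (.nil △ R) .nil
    rw [nf4_node_low hn, h0] at h1; omega
  · change nf4 (.nil △ (R △ .nil)) ≤ 1
    have h1 := nf4_node_le R .nil
    rw [nf4_node_low hn]; rw [h0] at h1; omega
  · change nf4 ((R △ .nil) △ .nil) ≤ 1
    have h1 := nf4_node_le R .nil
    have h2 := nf4_node_le (R △ .nil) .nil
    rw [h0] at h1 h2; omega
  · change nf4 (app B ((.nil △ .nil) △ T)) ≤ 1
    rw [nf4_app, hb, nf4_node_low ho]; omega
  · change nf4 (app B (.nil △ (.nil △ T))) ≤ 1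
    rw [nf4_app, hb, nf4_node_low hn, nf4_node_low hn]; omega
  · change nf4 (T △ app B (.nil △ .nil)) ≤ 1
    have h1 := nf4_node_le T (app B (.nil △ .nil))
    rw [hBo'] at h1; omega
  · change nf4 (app T (app B (.nil △ .nil) △ .nil)) ≤ 1
    rw [nf4_app, nf4_node_low hBn, h0]; omega
  · change nf4 ((.nil △ T) △ B) ≤ 1
    have h1 := nf4_node_le (.nil △ T) B
    rw [nf4_node_low hn, hb] at h1; omega
  · change nf4 (.nil △ (T △ B)) ≤ 1
    have h1 := nf4_node_le T B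
    rw [nf4_node_low hn]; rw [hb] at h1; omega
  · change nf4 (app T (B △ (.nil △ .nil))) ≤ 1
    rw [nf4_app, hBo]; omega
  · change nf4 ((T △ B) △ .nil) ≤ 1
    have h1 := nf4_node_le T B
    have h2 := nf4_node_le (T △ B) .nil
    rw [hb] at h1; rw [h0] at h2; omega
  · change nf4 (.nil △ app T (B △ .nil)) ≤ 1
    rw [nf4_node_low hn, nf4_app, hB1]; omega
  · change nf4 (app T (B △ .nil) △ .nil) ≤ 1
    have h1 := nf4_node_le (app T (B △ .nil)) .nil
    rw [nf4_app, hB1, h0] at h1; omega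

/-- at most one part at least `4` : no word of P5 -/
theorem TyP5D.disj_n4 (h : TyP5D S F g) (h' : ∀ w ∈ g'.B, nf4 w.1 ≤ 1) : ∀ w ∈ g.B, w ∉ g'.B := by
  intro w hw hw'
  have := h.two4 w hw
  have := h' w hw'
  omega

theorem TyP5MD.disj_n4 (h : TyP5MD S F g) (h' : ∀ w ∈ g'.B, nf4 w.1 ≤ 1) : ∀ w ∈ g.B, w ∉ g'.B := by
  intro w hw hw'
  have := h.two4 w hw
  have := h' w hw'
  omega

/-! ### S5 -/

theorem nf4_lp (n : ℕ) : nf4 (lp n) = 0 := nf4_low (by have := ht_lp n; omega)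

theorem TyS5.nf4 (h : TyS5 F g) : ∀ w ∈ g.B, nf4 w.1 ≤ 1 := by
  have h0 : OddHC.nf4 (.nil : BinaryTree Unit) = 0 := rfl
  have hn : OddHC.ht (.nil : BinaryTree Unit) ≤ 2 := Nat.zero_le _
  have h2 : OddHC.ht (H1.ch 2) ≤ 2 := by decide
  have hc2 : OddHC.nf4 (H1.ch 2) = 0 := nf4_low (by omega)
  have hl : ∀ n, OddHC.ht (lp n) ≤ 2 := fun n => by have := ht_lp n; omega
  obtain ⟨s, n, -, -, h | h | h⟩ := h
  · intro w hw
    have a := nf4_ch s
    rcases h.words w hw with e | ⟨-, e | e⟩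
    · rw [e]
      have := nf4_w1_le (lp (n + 2)) (H1.ch s) .nil
      rw [nf4_lp, h0] at this
      omega
    · rw [e, nf4_w1_low hn, nf4_lp]
      omega
    · rw [e, nf4_w1_low (hl _), h0]
      omega
  · intro w hw
    have a := nf4_ch s
    rcases h.words w hw with e | ⟨-, e | e⟩
    · rw [e]
      have := nf4_w1_le .nil (H1.ch s) (lp (n + 2))
      rw [nf4_lp, h0] at this
      omega
    · rw [e, nf4_w1_low (hl _), h0]
      omega
    · rw [e, nf4_w1_low hn, nf4_lp]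
      omega
  · intro w hw
    have a := nf4_ch s
    have b : OddHC.nf4 (app (H1.ch s) (lp n)) ≤ 1 := by
      rw [nf4_app, nf4_lp]
      omega
    rcases h.words w hw with e | ⟨-, e | e⟩
    · rw [e]
      have := nf4_w1_le (lp 1) (app (H1.ch s) (lp n)) (H1.ch 2)
      rw [nf4_lp, hc2] at this
      omega
    · rw [e, nf4_w1_low h2, nf4_lp]
      omega
    · rw [e, nf4_w1_low (hl _), hc2]
      omega

/-- **W-P5-S5** (no condition) -/
theorem TyP5D.disj_S5 (h : TyP5D S F g) (h' : TyS5 F' g') : ∀ w ∈ g.B, w ∉ g'.B := h.disj_n4 h'.nf4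

theorem TyP5MD.disj_S5 (h : TyP5MD S F g) (h' : TyS5 F' g') : ∀ w ∈ g.B, w ∉ g'.B := h.disj_n4 h'.nf4

/-! ### L1 -/

theorem nf4_one {M : Multiset ℕ} {n a b : ℕ} (h : M = {n} + Multiset.replicate a 2 + Multiset.replicate b 1) :
    M.countP (4 ≤ ·) ≤ 1 := by
  rw [h, Multiset.countP_add, Multiset.countP_add]
  have h1 : Multiset.countP (4 ≤ ·) ({n} : Multiset ℕ) ≤ 1 := by
    have := Multiset.countP_le_card (4 ≤ ·) ({n} : Multiset ℕ)
    rwa [Multiset.card_singleton] at this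
  have h2 : Multiset.countP (4 ≤ ·) (Multiset.replicate a 2) = 0 := by
    rw [Multiset.countP_eq_zero]
    intro x hx
    rw [Multiset.eq_of_mem_replicate hx]
    omega
  have h3 : Multiset.countP (4 ≤ ·) (Multiset.replicate b 1) = 0 := by
    rw [Multiset.countP_eq_zero]
    intro x hx
    rw [Multiset.eq_of_mem_replicate hx]
    omega
  omega

theorem LWd_n4 {n : ℕ} {Φ : ZMod (2 * n + 1) → ℕ} (h : L1.Db k n Φ) {i : ℕ} (hi : i < 20) :
    nf4 (L1.LWd n Φ i) ≤ 1 := by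
  have hg := L1.GR_RH h.hn Φ h.hk
  have hc := L1.cont_RH h.hn Φ
  have hR : nf4 (L1.RH n Φ) ≤ 1 := nf4_one (b := 1) (by rw [hc]; rfl)
  have hs : ht (L1.RH n Φ) = n + 2 := L1.ht_RH h.hn Φ
  have hcc := hg.cont
  have hS : nf4 (Tsq.sq (L1.RH n Φ)).1 ≤ 1 := by
    have : nf4 (Tsq.sq (L1.RH n Φ)).2 + nf4 (Tsq.sq (L1.RH n Φ)).1 = nf4 (L1.RH n Φ) := by
      unfold nf4
      rw [← Multiset.countP_add, hcc]
    omega
  have hB : ht (Tsq.sq (L1.RH n Φ)).2 ≤ 2 := by
    rw [ht_eq]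
    apply Multiset.sup_le.2
    intro x hx
    have h1 : x ∈ cont (L1.RH n Φ) := by
      rw [← hcc]
      exact Multiset.mem_add.2 (Or.inl hx)
    have hx2 : x ≠ n + 2 := by
      rintro rfl
      have h3 : n + 2 ∈ cont (Tsq.sq (L1.RH n Φ)).1 := by
        have h4 := hg.htS
        rw [hs, ht_eq] at h4
        rw [← h4]
        exact sup_mem (by rintro e; rw [e] at h4; simp at h4)
      have h5 : 2 ≤ (cont (L1.RH n Φ)).count (n + 2) := by
        rw [← hcc, Multiset.count_add]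
        have a1 := Multiset.count_pos.2 hx
        have a2 := Multiset.count_pos.2 h3
        omega
      have hn := h.hn
      have h6 : (cont (L1.RH n Φ)).count (n + 2) = 1 := by
        rw [hc, Multiset.count_add, Multiset.count_add, Multiset.count_replicate,
          if_neg (by omega), Multiset.count_singleton_self, Multiset.count_singleton,
          if_neg (by omega)]
      omega
    rw [hc] at h1
    simp only [Multiset.mem_add, Multiset.mem_singleton, Multiset.mem_replicate] at h1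
    omega
  exact nf4_W hR hS hB i hi

theorem TyL1.nf4 (h : TyL1 F g) : ∀ w ∈ g.B, nf4 w.1 ≤ 1 := by
  obtain ⟨n, Φ, m, h1, _, h2⟩ := L1.words_L1 h
  intro w hw
  obtain ⟨i, hi, _, e⟩ := h2 w hw
  have h3 := LWd_n4 h1 hi
  rw [← e] at h3
  cases m
  · exact h3
  · rw [if_pos rfl] at h3
    have e1 : OddHC.nf4 (Tsq.mirX w).1 = OddHC.nf4 w.1 := nf4_mir _
    rwa [e1] at h3

/-- **W-P5-L1** (no condition) -/
theorem TyP5D.disj_L1 (h : TyP5D S F g) (h' : TyL1 F' g') : ∀ w ∈ g.B, w ∉ g'.B := h.disj_n4 h'.nf4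

theorem TyP5MD.disj_L1 (h : TyP5MD S F g) (h' : TyL1 F' g') : ∀ w ∈ g.B, w ∉ g'.B := h.disj_n4 h'.nf4

/-! ### H -/

theorem J.JG.nf4 {n : ℕ} (hn : 1 ≤ n) {B : Finset (X k)} {P U M : Set (ZMod (2 * n + 1) → ℕ)}
    (h : J.JG n B P U M) : ∀ w ∈ B, nf4 w.1 ≤ 1 := by
  have key : ∀ G : ZMod (2 * n + 1) → ℕ, OddHC.nf4 (Ring1.RF n G) ≤ 1 := by
    intro G
    exact nf4_one (n := n + 2) (a := ∑ x, G x) (b := 0) (by rw [Ring1.cont_RF hn]; simp)
  intro w hw
  rcases h w hw with ⟨Φ, _, i, hi, _, _, e⟩ | ⟨G, _, _, e⟩ | ⟨Ψ, _, t, D, u, i, ht, hD, hm, hi, hi', e⟩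
  · rw [e]
    exact nf4_W (B := .nil) (T := .nil) (key Φ) (Nat.zero_le _) (Nat.zero_le _) i (by omega)
  · rw [e]
    exact key G
  · rw [e, nf4_mir]
    have h1 : OddHC.nf4 (J.RR 0 D u) ≤ 1 := by
      have h2 := key Ψ
      rw [← nf4_mir, hm] at h2
      have e2 : cont (J.RR t D u) = Multiset.replicate t 2 + cont (J.RR 0 D u) := by
        change cont (lv2 t (J.RR 0 D u)) = _
        rw [cont_lv2]
      unfold OddHC.nf4 at h2 ⊢
      rw [e2, Multiset.countP_add] at h2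
      omega
    exact nf4_W (Nat.zero_le _) h1 (J.ht_b2 t) i hi'

theorem Hole2.TyH.nf4 (h : Hole2.TyH F g) : ∀ w ∈ g.B, nf4 w.1 ≤ 1 := by
  obtain ⟨n, hn, P, U, M, h1⟩ := h.jg
  exact h1.nf4 hn

/-- **W-P5-H** (no condition) -/
theorem TyP5D.disj_H (h : TyP5D S F g) (h' : Hole2.TyH F' g') : ∀ w ∈ g.B, w ∉ g'.B := h.disj_n4 h'.nf4

theorem TyP5MD.disj_H (h : TyP5MD S F g) (h' : Hole2.TyH F' g') : ∀ w ∈ g.B, w ∉ g'.B := h.disj_n4 h'.nf4

end Pool.OddHC
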